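import Pool.Agent.Work.MP_6241b7_lin.Nested

/-!
# Embedding a tree along a nested sequence
-/

set_option autoImplicit false

open Finset Pool.Agent.Work.MP_6241b7_co.Frac

namespace Pool.Agent.Work.MP_6241b7_lin

section Embed

variable {V X : Type*} [DecidableEq V] [Fintype V] [DecidableEq X] [Fintype X]

/-- a rooted tree whose vertices are ranked by `κ`, with a last internal vertex `m` -/
structure RTree (r m : X) (par : X → X) (κ : X → ℕ) : Prop where
  root : ∀ x, κ r ≤ κ x
  lt : ∀ x, x ≠ r → κ (par x) < κ x
  last : ∀ x, x ≠ r → x ≠ m → κ m ≤ κ x → par x = m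
  child : ∃ x, x ≠ r ∧ par x = m

/-- the required adjacency of the image `u` of a vertex to the image `v` of its parent -/
def Arc (D : V → V → Prop) (σ : Bool) (v u : V) : Prop := if σ then D v u else D u v

/-- weights of the vertices -/
noncomputable def om (m x : X) : ℝ := if x = m then 1 / 2 else 1

omit [Fintype X] in
theorem om_pos (m x : X) : 1 / 2 ≤ om m x := by
  unfold om
  split_ifs <;> norm_num

/-- embeddings of the subtree `U` -/
structure PEmb (D : V → V → Prop) (r : X) (par : X → X) (κ : X → ℕ) (σ : X → Bool)
    (U : Finset X) (f : X → V) : Prop where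
  root : r ∈ U
  down : ∀ x ∈ U, ∀ y, κ y < κ x → y ∈ U
  inj : ∀ x ∈ U, ∀ y ∈ U, f x = f y → x = y
  arc : ∀ x ∈ U, x ≠ r → Arc D (σ x) (f (par x)) (f x)

theorem step_cov {D : V → V → Prop} [DecidableRel D] {P : Finset V → ℝ} (hP : ∀ S, 0 ≤ P S)
    {m p : X} {U : Finset X} {f : X → V} (hp : p ∈ U) (hm : m ∈ U → p = m)
    (hinj : ∀ x ∈ U, ∀ y ∈ U, f x = f y → x = y)
    (hno : ∀ S, P S ≠ 0 → ∀ y ∈ S, D (f p) y → ∃ x ∈ U, f x = y)
    (h : 1 / 2 ≤ ∑ S, P S * cov D S (f p)) :
    1 / 2 ≤ ∑ x ∈ U, om m x * pr P (f x) := by
  refine h.trans ?_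
  have e1 : ∑ x ∈ U, om m x * pr P (f x) =
      ∑ S, P S * ∑ x ∈ U, (if f x ∈ S then om m x else 0) := by
    unfold pr
    simp_rw [Finset.mul_sum]
    rw [Finset.sum_comm]
    refine Finset.sum_congr rfl fun S _ => Finset.sum_congr rfl fun x _ => ?_
    split_ifs
    · ring
    · simp
  rw [e1]
  refine Finset.sum_le_sum fun S _ => ?_
  by_cases hS : P S = 0
  · rw [hS, zero_mul, zero_mul]
  refine mul_le_mul_of_nonneg_left ?_ (hP S)
  have hnn : ∀ x ∈ U, 0 ≤ (if f x ∈ S then om m x else 0) := by
    intro x _
    have := om_pos m x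
    split_ifs <;> linarith
  unfold cov
  by_cases h1 : f p ∈ S
  · rw [if_pos h1]
    refine le_trans ?_ (Finset.single_le_sum hnn hp)
    rw [if_pos h1]
    exact om_pos m p
  · rw [if_neg h1]
    by_cases h2 : ∃ u ∈ S, D (f p) u
    · rw [if_pos h2]
      obtain ⟨u, hu, hu2⟩ := h2
      obtain ⟨x, hx, rfl⟩ := hno S hS u hu hu2
      refine le_trans ?_ (Finset.single_le_sum hnn hx)
      rw [if_pos hu]
      have h3 : x ≠ m := by
        rintro rfl
        have h4 := hm hx
        rw [h4] at h1
        exact h1 hu
      unfold om
      rw [if_neg h3]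
    · rw [if_neg h2]
      exact Finset.sum_nonneg hnn

theorem pr_nonneg {P : Finset V → ℝ} (hP : ∀ S, 0 ≤ P S) (v : V) : 0 ≤ pr P v :=
  Finset.sum_nonneg fun S _ => by
    split_ifs
    · exact hP S
    · exact le_rfl

theorem embed {D : V → V → Prop} [DecidableRel D] [DecidableRel (fun x y => D y x)]
    {𝒮 : Finset Bool} {ε : ℝ} (hε : 0 < ε) {N k : ℕ} {A : ℕ → V → ℝ}
    {P : ℕ → Bool → Finset V → ℝ} (hA : Nested D 𝒮 ε N A P)
    {r m : X} {par : X → X} {κ : X → ℕ} (hT : RTree r m par κ) {σ : X → Bool}
    (hσ : ∀ x, x ≠ r → σ x ∈ 𝒮) (hX : Fintype.card X = k + 1)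
    (hN : (k : ℝ) - 1 + ε * (2 * k - 1) < N) :
    ∃ f, PEmb D r par κ σ univ f := by
  classical
  by_contra hcon
  have hmono : ∀ t v, A t v ≤ A (t + 1) v := by
    intro t v
    rw [hA.succ]
    have := Finset.sum_nonneg (s := 𝒮) fun σ _ => pr_nonneg (hA.nonneg t σ) v
    linarith
  have key : ∀ s ≤ N, ∃ (U : Finset X) (f : X → V), PEmb D r par κ σ U f ∧
      (∀ x ∈ U, A (N - s) (f x) ≤ ε) ∧
      (s : ℝ) + 2 * ∑ x ∈ U, om m x * A (N - s) (f x) ≤ U.card - 1 + 2 * ε * ∑ x ∈ U, om m x := by
    intro s
    induction s with
    | zero =>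
      intro _
      obtain ⟨v, hv⟩ := hA.last
      refine ⟨{r}, fun _ => v, ⟨Finset.mem_singleton_self r, ?_, ?_, ?_⟩, ?_, ?_⟩
      · intro x hx y hy
        rw [Finset.mem_singleton.1 hx] at hy
        exact absurd (hT.root y) (by omega)
      · intro x hx y hy _
        rw [Finset.mem_singleton.1 hx, Finset.mem_singleton.1 hy]
      · intro x hx hxr
        exact absurd (Finset.mem_singleton.1 hx) hxr
      · intro x _
        simpa using hv
      · have := om_pos m r
        simp only [Nat.cast_zero, Nat.sub_zero, Finset.sum_singleton, Finset.card_singleton,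
          Nat.cast_one]
        nlinarith
    | succ s ih =>
      intro hs
      obtain ⟨U, f, hU, hUA, hineq⟩ := ih (by omega)
      obtain ⟨t, ht⟩ : ∃ t, N - s = t + 1 := ⟨N - (s + 1), by omega⟩
      have ht' : N - (s + 1) = t := by omega
      rw [ht] at hUA hineq
      rw [ht']
      have hne : (univ \ U).Nonempty := by
        rw [Finset.nonempty_iff_ne_empty]
        intro h
        have h1 : U = univ := by
          rw [Finset.sdiff_eq_empty_iff_subset] at h
          exact Finset.univ_subset_iff.1 h
        exact hcon ⟨f, h1 ▸ hU⟩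
      obtain ⟨x, hx, hmin⟩ := Finset.exists_min_image (univ \ U) κ hne
      have hxU : x ∉ U := (Finset.mem_sdiff.1 hx).2
      have hmin' : ∀ y, κ y < κ x → y ∈ U := by
        intro y hy
        by_contra hc
        have := hmin y (Finset.mem_sdiff.2 ⟨Finset.mem_univ _, hc⟩)
        omega
      have hxr : x ≠ r := by
        rintro rfl
        exact hxU hU.root
      have hpU : par x ∈ U := hmin' _ (hT.lt x hxr)
      have hpm : m ∈ U → par x = m := by
        intro hm
        have h1 : x ≠ m := by
          rintro rfl
          exact hxU hm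
        refine hT.last x hxr h1 ?_
        by_contra hc
        exact hxU (hU.down m hm x (by omega))
      have hom := om_pos m x
      by_cases hyes : ∃ y, A t y ≤ ε ∧ Arc D (σ x) (f (par x)) y ∧ ∀ z ∈ U, f z ≠ y
      · obtain ⟨y, hy1, hy2, hy3⟩ := hyes
        have hup : ∀ z ∈ U, Function.update f x y z = f z := by
          intro z hz
          exact Function.update_of_ne (by rintro rfl; exact hxU hz) _ _
        refine ⟨insert x U, Function.update f x y, ⟨Finset.mem_insert_of_mem hU.root, ?_, ?_, ?_⟩,
          ?_, ?_⟩
        · intro z hz w hw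
          rcases Finset.mem_insert.1 hz with rfl | hz
          · exact Finset.mem_insert_of_mem (hmin' w hw)
          · exact Finset.mem_insert_of_mem (hU.down z hz w hw)
        · intro z hz w hw hzw
          rcases Finset.mem_insert.1 hz with hz' | hz'
          · rcases Finset.mem_insert.1 hw with hw' | hw'
            · rw [hz', hw']
            · rw [hz', Function.update_self, hup w hw'] at hzw
              exact absurd hzw.symm (hy3 w hw')
          · rcases Finset.mem_insert.1 hw with hw' | hw'
            · rw [hw', Function.update_self, hup z hz'] at hzw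
              exact absurd hzw (hy3 z hz')
            · rw [hup z hz', hup w hw'] at hzw
              exact hU.inj z hz' w hw' hzw
        · intro z hz hzr
          rcases Finset.mem_insert.1 hz with rfl | hz
          · rw [Function.update_self, hup _ hpU]
            exact hy2
          · have h1 : par z ∈ U := hU.down z hz _ (hT.lt z hzr)
            rw [hup z hz, hup _ h1]
            exact hU.arc z hz hzr
        · intro z hz
          rcases Finset.mem_insert.1 hz with rfl | hz
          · rw [Function.update_self]
            exact hy1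
          · rw [hup z hz]
            exact (hmono t _).trans (hUA z hz)
        · rw [Finset.sum_insert hxU, Finset.sum_insert hxU, Finset.card_insert_of_notMem hxU,
            Function.update_self]
          have e1 : ∑ z ∈ U, om m z * A t (Function.update f x y z) ≤
              ∑ z ∈ U, om m z * A (t + 1) (f z) := by
            refine Finset.sum_le_sum fun z hz => ?_
            rw [hup z hz]
            exact mul_le_mul_of_nonneg_left (hmono t _) (by linarith [om_pos m z])
          have e2 : om m x * A t y ≤ om m x * ε := mul_le_mul_of_nonneg_left hy1 (by linarith)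
          push_cast
          nlinarith
      · push Not at hyes
        refine ⟨U, f, hU, fun z hz => (hmono t _).trans (hUA z hz), ?_⟩
        have hfp : A t (f (par x)) ≤ ε := (hmono t _).trans (hUA _ hpU)
        have e1 : 1 / 2 ≤ ∑ z ∈ U, om m z * pr (P t (σ x)) (f z) := by
          cases hσx : σ x with
          | true =>
            refine step_cov (D := D) (hA.nonneg t true) hpU hpm hU.inj ?_ (hA.cov_true t _ hfp)
            intro S hS y hy hy2
            refine hyes y (hA.supp t _ S hS y hy) ?_
            rw [hσx]
            exact hy2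
          | false =>
            refine step_cov (D := fun x y => D y x) (hA.nonneg t false) hpU hpm hU.inj ?_
              (hA.cov_false t _ hfp)
            intro S hS y hy hy2
            refine hyes y (hA.supp t _ S hS y hy) ?_
            rw [hσx]
            exact hy2
        have e2 : ∑ z ∈ U, om m z * A t (f z) + ∑ z ∈ U, om m z * pr (P t (σ x)) (f z) ≤
            ∑ z ∈ U, om m z * A (t + 1) (f z) := by
          rw [← Finset.sum_add_distrib]
          refine Finset.sum_le_sum fun z _ => ?_
          rw [← mul_add]
          refine mul_le_mul_of_nonneg_left ?_ (by linarith [om_pos m z])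
          rw [hA.succ]
          have := Finset.single_le_sum (s := 𝒮) (f := fun σ => pr (P t σ) (f z))
            (fun σ _ => pr_nonneg (hA.nonneg t σ) (f z)) (hσ x hxr)
          linarith
        push_cast
        linarith
  obtain ⟨U, f, hU, -, hineq⟩ := key N le_rfl
  rw [Nat.sub_self] at hineq
  simp only [hA.zero, mul_zero, Finset.sum_const_zero, add_zero] at hineq
  have hUne : U ≠ univ := by
    rintro rfl
    exact hcon ⟨f, hU⟩
  have hcard : U.card ≤ k := by
    have h1 := Finset.card_lt_card (Finset.ssubset_univ_iff.2 hUne)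
    rw [Finset.card_univ, hX] at h1
    omega
  have hcard' : (U.card : ℝ) ≤ k := by exact_mod_cast hcard
  have hom : 2 * ∑ x ∈ U, om m x ≤ 2 * k - 1 := by
    by_cases hm : m ∈ U
    · rw [← Finset.add_sum_erase U _ hm]
      have e1 : ∑ x ∈ U.erase m, om m x = (U.card : ℝ) - 1 := by
        rw [Finset.sum_congr rfl (g := fun _ => (1 : ℝ))]
        · rw [Finset.sum_const, nsmul_eq_mul, mul_one, Finset.card_erase_of_mem hm,
            Nat.cast_sub (Finset.card_pos.2 ⟨m, hm⟩), Nat.cast_one]
        · intro x hx
          unfold om
          rw [if_neg (Finset.ne_of_mem_erase hx)]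
      rw [e1]
      unfold om
      rw [if_pos rfl]
      linarith
    · obtain ⟨x, hxr, hxm⟩ := hT.child
      have hxU : x ∉ U := by
        intro hx
        apply hm
        have := hT.lt x hxr
        rw [hxm] at this
        exact hU.down x hx m this
      have hne : x ≠ m := by
        rintro rfl
        have := hT.lt x hxr
        rw [hxm] at this
        omega
      have h1 : (insert x (insert m U)).card ≤ k + 1 := by
        rw [← hX, ← Finset.card_univ]
        exact Finset.card_le_card (Finset.subset_univ _)
      rw [Finset.card_insert_of_notMem (by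
        intro hc
        rcases Finset.mem_insert.1 hc with hc | hc
        · exact hne hc
        · exact hxU hc), Finset.card_insert_of_notMem hm] at h1
      have h2 : (U.card : ℝ) + 1 ≤ k := by exact_mod_cast (by omega : U.card + 1 ≤ k)
      have e1 : ∑ x ∈ U, om m x = (U.card : ℝ) := by
        rw [Finset.sum_congr rfl (g := fun _ => (1 : ℝ))]
        · rw [Finset.sum_const, nsmul_eq_mul, mul_one]
        · intro x hx
          unfold om
          rw [if_neg (by rintro rfl; exact hm hx)]
      rw [e1]
      linarith
  have h3 : ε * (2 * ∑ x ∈ U, om m x) ≤ ε * (2 * k - 1) := mul_le_mul_of_nonneg_left hom hε.le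
  linarith

end Embed

end Pool.Agent.Work.MP_6241b7_lin
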