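import Pool.Agent.Work.MP_6241b7_co.FracMain

/-!
# Lovász's bound for the chromatic number in terms of the fractional chromatic number
-/

set_option autoImplicit false

open Finset Pool.Agent.Work.MP_6241b7_co Pool.Agent.Work.MP_6241b7_co.Frac

namespace Pool.Agent.Work.MP_6241b7_lin

theorem harmonic_step {s j : ℕ} (hj : j ≤ s) :
    (j : ℝ) / s ≤ (harmonic s : ℝ) - (harmonic (s - j) : ℝ) := by
  induction j with
  | zero => simp
  | succ j ih =>
    have h1 := ih (by omega)
    obtain ⟨t, ht⟩ : ∃ t, s - j = t + 1 := ⟨s - j - 1, by omega⟩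
    have ht' : s - (j + 1) = t := by omega
    rw [ht, harmonic_succ] at h1
    rw [ht']
    push_cast at h1 ⊢
    have hs : (0 : ℝ) < s := by
      have : 0 < s := by omega
      exact_mod_cast this
    have h2 : (t : ℝ) + 1 ≤ s := by
      have : t + 1 ≤ s := by omega
      exact_mod_cast this
    have h3 : (1 : ℝ) / s ≤ ((t : ℝ) + 1)⁻¹ := by
      rw [one_div]
      exact inv_anti₀ (by positivity) h2
    rw [add_div]
    linarith

theorem harmonic_mono {a b : ℕ} (h : a ≤ b) : (harmonic a : ℝ) ≤ (harmonic b : ℝ) := by
  have h1 := harmonic_step (s := b) (j := b - a) (by omega)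
  have h2 : b - (b - a) = a := by omega
  rw [h2] at h1
  have h3 : (0 : ℝ) ≤ ((b - a : ℕ) : ℝ) / b := by positivity
  linarith

theorem greedy {V : Type*} [DecidableEq V] {D : V → V → Prop} (hirr : ∀ v, ¬ D v v)
    (U : Finset V) :
    ∃ m : ℕ, Col D U m ∧ ∃ π : V → ℝ, (∀ v, 0 ≤ π v) ∧ ∑ v ∈ U, π v = m ∧
      ∀ S ⊆ U, Ind D S → ∑ v ∈ S, π v ≤ (harmonic S.card : ℝ) := by
  classical
  induction U using Finset.strongInduction with
  | H U ih =>
    rcases U.eq_empty_or_nonempty with rfl | hU
    · refine ⟨0, ⟨fun _ => 0, by simp, by simp⟩, fun _ => 0, by simp, by simp, ?_⟩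
      intro S hS _
      rw [Finset.subset_empty.1 hS]
      simp
    obtain ⟨I, hI, hmax⟩ := Finset.exists_max_image (U.powerset.filter fun S => Ind D S)
      Finset.card ⟨∅, by simp [Ind]⟩
    rw [Finset.mem_filter, Finset.mem_powerset] at hI
    have hmax' : ∀ S ⊆ U, Ind D S → S.card ≤ I.card := fun S h1 h2 =>
      hmax S (Finset.mem_filter.2 ⟨Finset.mem_powerset.2 h1, h2⟩)
    have hI0 : 0 < I.card := by
      obtain ⟨u, hu⟩ := hU
      have := hmax' {u} (Finset.singleton_subset_iff.2 hu) (by
        intro x hx y hy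
        rw [Finset.mem_singleton.1 hx, Finset.mem_singleton.1 hy]
        exact hirr u)
      rw [Finset.card_singleton] at this
      omega
    have hss : U \ I ⊂ U := by
      obtain ⟨i, hi⟩ := Finset.card_pos.1 hI0
      exact Finset.ssubset_iff_subset_ne.2 ⟨Finset.sdiff_subset, fun h => by
        have := hI.1 hi
        rw [← h] at this
        exact (Finset.mem_sdiff.1 this).2 hi⟩
    obtain ⟨m, hm, π, hπ0, hπ1, hπ⟩ := ih _ hss
    have hIr : (0 : ℝ) < I.card := by exact_mod_cast hI0
    refine ⟨m + 1, ?_, fun v => if v ∈ I then 1 / I.card else π v, ?_, ?_, ?_⟩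
    · have h1 := hm.union (Col.of_indep hI.2)
      rwa [Finset.sdiff_union_of_subset hI.1] at h1
    · intro v
      dsimp only
      split_ifs
      · positivity
      · exact hπ0 v
    · rw [← Finset.sum_sdiff hI.1]
      rw [Finset.sum_congr rfl (g := π) (s₁ := U \ I), hπ1,
        Finset.sum_congr rfl (g := fun _ => 1 / (I.card : ℝ)) (s₁ := I)]
      · rw [Finset.sum_const, nsmul_eq_mul, mul_one_div_cancel hIr.ne']
        push_cast
        ring
      · intro v hv
        rw [if_pos hv]
      · intro v hv
        rw [if_neg (Finset.mem_sdiff.1 hv).2]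
    · intro S hS hSi
      rw [← Finset.sum_sdiff (Finset.inter_subset_left (s₁ := S) (s₂ := I))]
      have e0 : S \ (S ∩ I) = S \ I := by
        ext v
        simp
      rw [e0]
      have e1 : ∑ v ∈ S \ I, (if v ∈ I then 1 / (I.card : ℝ) else π v) ≤
          (harmonic (S.card - (S ∩ I).card) : ℝ) := by
        rw [Finset.sum_congr rfl (g := π)]
        · have h1 := hπ (S \ I) (Finset.sdiff_subset_sdiff hS subset_rfl)
            (fun x hx y hy => hSi x (Finset.mem_sdiff.1 hx).1 y (Finset.mem_sdiff.1 hy).1)
          have h2 : (S \ I).card = S.card - (S ∩ I).card := by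
            have := Finset.card_sdiff_add_card_inter S I
            omega
          rwa [h2] at h1
        · intro v hv
          rw [if_neg (Finset.mem_sdiff.1 hv).2]
      have e2 : ∑ v ∈ S ∩ I, (if v ∈ I then 1 / (I.card : ℝ) else π v) =
          ((S ∩ I).card : ℝ) / I.card := by
        rw [Finset.sum_congr rfl (g := fun _ => 1 / (I.card : ℝ))]
        · rw [Finset.sum_const, nsmul_eq_mul, mul_one_div]
        · intro v hv
          rw [if_pos (Finset.mem_inter.1 hv).2]
      rw [e2]
      have e3 := harmonic_step (Finset.card_le_card (Finset.inter_subset_left (s₁ := S) (s₂ := I)))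
      have e4 : ((S ∩ I).card : ℝ) / I.card ≤ ((S ∩ I).card : ℝ) / S.card := by
        rcases Nat.eq_zero_or_pos S.card with h0 | h0
        · have : (S ∩ I).card = 0 := by
            have := Finset.card_le_card (Finset.inter_subset_left (s₁ := S) (s₂ := I))
            omega
          rw [this]
          simp
        · refine div_le_div_of_nonneg_left (by positivity) (by exact_mod_cast h0) ?_
          exact_mod_cast hmax' S hS hSi
      linarith

/-- `χ ≤ (1 + log α) χ_f` -/
theorem lovasz {n : ℕ} {D : Fin n → Fin n → Prop} (hirr : ∀ v, ¬ D v v) {α : ℕ}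
    (hα : ∀ S : Finset (Fin n), (SimpleGraph.fromRel D).IsIndepSet (S : Set (Fin n)) → S.card ≤ α)
    {c : ℝ} (h : ((⌊c * (1 + Real.log α)⌋₊ : ℕ) : ℕ∞) < (SimpleGraph.fromRel D).chromaticNumber) :
    c < fractionalChromaticNumber (SimpleGraph.fromRel D) := by
  classical
  obtain ⟨m, hm, π, hπ0, hπ1, hπ⟩ := greedy hirr (univ : Finset (Fin n))
  have hlog : 0 ≤ Real.log (α : ℝ) := Real.log_natCast_nonneg α
  have h1 : ⌊c * (1 + Real.log α)⌋₊ < m := by
    by_contra hcon
    have h2 : ¬ Col D univ ⌊c * (1 + Real.log α)⌋₊ := by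
      refine not_col_of_le_chromaticNumber ?_
      push_cast
      exact Order.add_one_le_of_lt h
    obtain ⟨φ, h3, h4⟩ := hm
    exact h2 ⟨φ, fun x hx => (h3 x hx).trans_le (not_lt.1 hcon), h4⟩
  have h2 : c * (1 + Real.log α) < m := Nat.lt_of_floor_lt h1
  -- every fractional colouring is at least `m / (1 + log α)`
  have h3 : ∀ w, IsFractionalColouring (SimpleGraph.fromRel D) w →
      m / (1 + Real.log α) ≤ ∑ S, w S := by
    intro w hw
    rw [div_le_iff₀ (by linarith)]
    rw [← hπ1]
    calc ∑ v, π v ≤ ∑ v, π v * ∑ S with v ∈ S, w S := by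
          refine Finset.sum_le_sum fun v _ => ?_
          have := mul_le_mul_of_nonneg_left (hw.cover v) (hπ0 v)
          linarith
      _ = ∑ S, w S * ∑ v ∈ S, π v := by
          simp_rw [Finset.mul_sum, Finset.sum_filter]
          rw [Finset.sum_comm]
          refine Finset.sum_congr rfl fun S _ => ?_
          rw [← Finset.sum_filter]
          have : univ.filter (fun v => v ∈ S) = S := by
            ext v
            simp
          rw [this]
          exact Finset.sum_congr rfl fun v _ => mul_comm _ _
      _ ≤ ∑ S, w S * (1 + Real.log α) := by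
          refine Finset.sum_le_sum fun S _ => ?_
          by_cases hS : w S = 0
          · rw [hS, zero_mul, zero_mul]
          refine mul_le_mul_of_nonneg_left ?_ (hw.nonneg S)
          have hSi := hw.indep S hS
          refine (hπ S (Finset.subset_univ _) (fun x hx y hy hxy => ?_)).trans ?_
          · by_cases hxy' : x = y
            · subst hxy'
              exact hirr _ hxy
            · exact hSi hx hy hxy' ((SimpleGraph.fromRel_adj _ _ _).2 ⟨hxy', Or.inl hxy⟩)
          · exact (harmonic_mono (hα S hSi)).trans (harmonic_le_one_add_log α)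
      _ = (∑ S, w S) * (1 + Real.log α) := by rw [Finset.sum_mul]
  have h4 : m / (1 + Real.log α) ≤ fractionalChromaticNumber (SimpleGraph.fromRel D) := by
    refine le_csInf ?_ ?_
    · refine ⟨_, fun S => if S.card = 1 then 1 else 0, ⟨?_, ?_, ?_⟩, rfl⟩
      · intro S
        split_ifs <;> norm_num
      · intro S hS
        have h5 : S.card = 1 := by
          by_contra h
          exact hS (if_neg h)
        obtain ⟨a, rfl⟩ := Finset.card_eq_one.1 h5
        intro x hx y hy hxy
        simp only [Finset.coe_singleton, Set.mem_singleton_iff] at hx hy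
        exact absurd (hx.trans hy.symm) hxy
      · intro v
        rw [Finset.sum_filter]
        refine le_trans ?_ (Finset.single_le_sum (f := fun S : Finset (Fin n) =>
          if v ∈ S then (if S.card = 1 then (1 : ℝ) else 0) else 0) ?_ (Finset.mem_univ {v}))
        · simp
        · intro S _
          split_ifs <;> norm_num
    · rintro t ⟨w, hw, rfl⟩
      exact h3 w hw
  refine lt_of_lt_of_le ?_ h4
  rw [lt_div_iff₀ (by linarith)]
  exact h2

end Pool.Agent.Work.MP_6241b7_lin
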