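import Pool.Agent.Work.MP_6241b7_co.FracMain

/-!
# Fractional halving

`minimax`: the minimax theorem for finite matrices.

`half_gain`: for every weighting `w` of a digraph there is an independent set `I` such that the
weight of the vertices outside `I` with an out-neighbour in `I`, plus half of the weight of `I`, is
at least half of the total weight.

`exists_dist`: hence there is a probability distribution on independent sets `I` such that for all
vertices `v` the sum of half the probability of `v ∈ I` and of the probability that `v ∉ I` has an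
out-neighbour in `I` is at least one half.
-/

set_option autoImplicit false

open Finset Pool.Agent.Work.MP_6241b7_co.Frac

namespace Pool.Agent.Work.MP_6241b7_lin

/-- The minimax theorem for matrices. -/
theorem minimax {ι V : Type*} [Fintype ι] [Fintype V] (c : ι → V → ℝ) (b : ℝ)
    (h : ∀ w : V → ℝ, (∀ v, 0 ≤ w v) → ∃ i, b * ∑ v, w v ≤ ∑ v, w v * c i v) :
    ∃ p : ι → ℝ, (∀ i, 0 ≤ p i) ∧ ∑ i, p i = 1 ∧ ∀ v, b ≤ ∑ i, p i * c i v := by
  classical
  by_contra hcon
  let F : (ι → ℝ) →ₗ[ℝ] (V → ℝ) :=
    { toFun := fun l v => ∑ i, l i * c i v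
      map_add' := by
        intro l l'
        funext v
        simp only [Pi.add_apply]
        rw [← Finset.sum_add_distrib]
        exact Finset.sum_congr rfl fun i _ => by ring
      map_smul' := by
        intro t l
        funext v
        simp only [Pi.smul_apply, smul_eq_mul, RingHom.id_apply]
        rw [Finset.mul_sum]
        exact Finset.sum_congr rfl fun i _ => by ring }
  have hFapp : ∀ l v, F l v = ∑ i, l i * c i v := fun _ _ => rfl
  have hFc : Continuous F := LinearMap.continuous_of_finiteDimensional F
  set A : Set (V → ℝ) := F '' stdSimplex ℝ ι with hA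
  set B : Set (V → ℝ) := {z | ∀ v, b ≤ z v} with hB
  have hAc : IsCompact A := (isCompact_stdSimplex ℝ ι).image hFc
  have hAconv : Convex ℝ A := (convex_stdSimplex ℝ ι).linear_image F
  have hBcl : IsClosed B := by
    have h1 : B = ⋂ v, {z | b ≤ z v} := by
      ext z
      simp [hB]
    rw [h1]
    exact isClosed_iInter fun v => isClosed_le continuous_const (continuous_apply v)
  have hBconv : Convex ℝ B := by
    intro x hx y hy s t hs ht hst v
    have h1 := mul_le_mul_of_nonneg_left (hx v) hs
    have h2 := mul_le_mul_of_nonneg_left (hy v) ht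
    simp only [Pi.add_apply, Pi.smul_apply, smul_eq_mul]
    have h3 : b = s * b + t * b := by rw [← add_mul, hst, one_mul]
    linarith
  have hdisj : Disjoint A B := by
    rw [Set.disjoint_left]
    rintro z ⟨l, hl, rfl⟩ hz
    exact hcon ⟨l, hl.1, hl.2, hz⟩
  obtain ⟨f, u, s, hfA, hus, hfB⟩ :=
    geometric_hahn_banach_compact_closed hAconv hAc hBconv hBcl hdisj
  have hf : ∀ z : V → ℝ, f z = ∑ i, z i * f (Pi.single i 1) := by
    intro z
    have h1 : z = ∑ i, z i • (Pi.single i (1 : ℝ) : V → ℝ) := by
      funext j
      rw [Finset.sum_apply]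
      simp [Pi.single_apply]
    conv_lhs => rw [h1]
    rw [map_sum]
    refine Finset.sum_congr rfl fun i _ => ?_
    rw [map_smul, smul_eq_mul]
  have hone : (fun _ => b) ∈ B := fun _ => le_rfl
  have hg0 : ∀ i, 0 ≤ f (Pi.single i 1) := by
    intro i
    by_contra hneg
    push Not at hneg
    have h1 := hfB ((fun _ => b) + ((f (fun _ => b) - s) / (-f (Pi.single i 1))) •
      (Pi.single i (1 : ℝ) : V → ℝ)) (by
        intro j
        have h2 := hfB _ hone
        have h3 : 0 ≤ (f (fun _ => b) - s) / (-f (Pi.single i 1)) :=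
          div_nonneg (by linarith) (by linarith)
        simp only [Pi.add_apply, Pi.smul_apply, smul_eq_mul, Pi.single_apply]
        split_ifs <;> linarith)
    rw [map_add, map_smul, smul_eq_mul] at h1
    have h4 : (f (fun _ => b) - s) / (-f (Pi.single i 1)) * f (Pi.single i 1) =
        -(f (fun _ => b) - s) := by
      have h5 : f (Pi.single i 1) ≠ 0 := hneg.ne
      field_simp
    rw [h4] at h1
    linarith
  obtain ⟨i, hi⟩ := h (fun v => f (Pi.single v 1)) hg0
  have h1 := hfA (F (Pi.single i 1)) ⟨Pi.single i 1, single_mem_stdSimplex ℝ i, rfl⟩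
  rw [hf] at h1
  have h2 := hfB _ hone
  rw [hf, ← Finset.mul_sum] at h2
  have h3 : ∑ v, F (Pi.single i 1) v * f (Pi.single v 1) =
      ∑ v, f (Pi.single v 1) * c i v := by
    refine Finset.sum_congr rfl fun v _ => ?_
    rw [hFapp, Finset.sum_eq_single i, Pi.single_eq_same]
    · ring
    · intro j _ hj
      rw [Pi.single_eq_of_ne hj, zero_mul]
    · intro hc
      exact absurd (Finset.mem_univ _) hc
  rw [h3] at h1
  linarith

section Digraph

variable {V : Type*} [DecidableEq V]

/-- the amount by which the vertex `v` is covered by `S` -/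
noncomputable def cov (D : V → V → Prop) [DecidableRel D] (S : Finset V) (v : V) : ℝ :=
  if v ∈ S then 1 / 2 else if ∃ u ∈ S, D v u then 1 else 0

theorem half_gain (D : V → V → Prop) [DecidableRel D] (hirr : ∀ v, ¬ D v v) (w : V → ℝ)
    (hw : ∀ v, 0 ≤ w v) (X : Finset V) :
    ∃ I ⊆ X, Ind D I ∧ 1 / 2 * ∑ v ∈ X, w v ≤ ∑ v ∈ X, w v * cov D I v := by
  induction X using Finset.strongInduction with
  | H X ih =>
    rcases X.eq_empty_or_nonempty with rfl | hX
    · exact ⟨∅, subset_rfl, by simp [Ind], by simp⟩
    obtain ⟨v, hv, hvw⟩ := exists_pivot D w hw X hX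
    have hss : X.filter (fun u => u ≠ v ∧ ¬ D v u ∧ ¬ D u v) ⊂ X :=
      Finset.filter_ssubset.2 ⟨v, hv, by simp⟩
    obtain ⟨I, hIX, hI, hIw⟩ := ih _ hss
    have hI' : ∀ u ∈ I, u ∈ X ∧ u ≠ v ∧ ¬ D v u ∧ ¬ D u v := fun u hu => by
      simpa using Finset.mem_filter.1 (hIX hu)
    refine ⟨insert v I, ?_, ?_, ?_⟩
    · intro u hu
      rcases Finset.mem_insert.1 hu with rfl | hu
      · exact hv
      · exact (hI' u hu).1
    · intro x hx y hy
      rcases Finset.mem_insert.1 hx with rfl | hx1
      · rcases Finset.mem_insert.1 hy with rfl | hy1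
        · exact hirr _
        · exact (hI' y hy1).2.2.1
      · rcases Finset.mem_insert.1 hy with rfl | hy1
        · exact (hI' x hx1).2.2.2
        · exact hI x hx1 y hy1
    · have e1 : ∑ u ∈ X, w u ≤ ∑ u ∈ X, ((if u = v then w u else 0) +
          (if D v u then w u else 0) + (if D u v then w u else 0) +
          (if (u ≠ v ∧ ¬ D v u ∧ ¬ D u v) then w u else 0)) := by
        refine Finset.sum_le_sum fun u _ => ?_
        have h0 := hw u
        by_cases a1 : u = v
        · simp only [a1, if_true]
          rw [← a1]
          split_ifs <;> linarith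
        · by_cases a2 : D v u
          · simp only [a1, a2, if_true, if_false]
            split_ifs <;> linarith
          · by_cases a3 : D u v
            · simp only [a1, a2, a3, if_true, if_false]
              split_ifs <;> linarith
            · simp [a1, a2, a3]
      rw [Finset.sum_add_distrib, Finset.sum_add_distrib, Finset.sum_add_distrib,
        ← Finset.sum_filter, ← Finset.sum_filter, ← Finset.sum_filter, ← Finset.sum_filter,
        Finset.filter_eq' X v, if_pos hv, Finset.sum_singleton] at e1
      have e2 : ∑ u ∈ X, ((if u = v then w u * (1 / 2) else 0) + (if D u v then w u else 0) +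
          (if (u ≠ v ∧ ¬ D v u ∧ ¬ D u v) then w u * cov D I u else 0)) ≤
          ∑ u ∈ X, w u * cov D (insert v I) u := by
        refine Finset.sum_le_sum fun u _ => ?_
        have h0 := hw u
        by_cases a1 : u = v
        · subst a1
          simp [cov, hirr]
        · by_cases a3 : D u v
          · have a4 : u ∉ insert v I := by
              intro hc
              rcases Finset.mem_insert.1 hc with hc | hc
              · exact a1 hc
              · exact (hI' u hc).2.2.2 a3
            have a5 : ∃ z ∈ insert v I, D u z := ⟨v, Finset.mem_insert_self _ _, a3⟩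
            simp only [cov, if_neg a1, if_neg a4, if_pos a5, if_pos a3]
            simp [a3]
          · have a4 : cov D (insert v I) u = cov D I u := by
              simp only [cov, Finset.mem_insert, a1, false_or, exists_eq_or_imp, a3]
            rw [a4, if_neg a1, if_neg a3]
            have h1 : 0 ≤ cov D I u := by
              unfold cov
              split_ifs <;> norm_num
            have h2 := mul_nonneg h0 h1
            split_ifs <;> linarith
      rw [Finset.sum_add_distrib, Finset.sum_add_distrib, ← Finset.sum_filter,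
        ← Finset.sum_filter, ← Finset.sum_filter,
        Finset.filter_eq' X v, if_pos hv, Finset.sum_singleton] at e2
      have h0 := hw v
      linarith

/-- the digraph itself or its reverse -/
def rel (D : V → V → Prop) (σ : Bool) (v u : V) : Prop := if σ then D v u else D u v

omit [DecidableEq V] in
theorem ind_rel {D : V → V → Prop} {σ : Bool} {S : Finset V} (h : Ind (rel D σ) S) : Ind D S := by
  intro x hx y hy hxy
  cases σ with
  | true => exact h x hx y hy (by simpa [rel] using hxy)
  | false => exact h y hy x hx (by simpa [rel] using hxy)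

theorem sum_dite_subtype {α : Type*} [Fintype α] (Q : α → Prop) [DecidablePred Q]
    (p : {a // Q a} → ℝ) (g : α → ℝ) :
    ∑ a, (if h : Q a then p ⟨a, h⟩ else 0) * g a = ∑ i : {a // Q a}, p i * g i.1 := by
  have h1 : ∑ a, (if h : Q a then p ⟨a, h⟩ else 0) * g a =
      ∑ a with Q a, (if h : Q a then p ⟨a, h⟩ else 0) * g a := by
    rw [Finset.sum_filter]
    refine Finset.sum_congr rfl fun a _ => ?_
    split_ifs <;> simp
  rw [h1, Finset.sum_subtype (p := Q) (univ.filter Q) (by simp)
    (fun a => (if h : Q a then p ⟨a, h⟩ else 0) * g a)]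
  refine Finset.sum_congr rfl fun i _ => ?_
  rw [dif_pos i.2]

theorem exists_dist [Fintype V] (D : V → V → Prop) [DecidableRel D] (hirr : ∀ v, ¬ D v v)
    (W : Finset V) :
    ∃ P : Finset V → ℝ, (∀ S, 0 ≤ P S) ∧ ∑ S, P S = 1 ∧ (∀ S, P S ≠ 0 → S ⊆ W ∧ Ind D S) ∧
      ∀ v ∈ W, 1 / 2 ≤ ∑ S, P S * cov D S v := by
  classical
  obtain ⟨p, hp0, hp1, hp⟩ := minimax
    (ι := {S : Finset V // S ⊆ W ∧ Ind D S}) (V := V)
    (fun S v => if v ∈ W then cov D S.1 v else 1 / 2) (1 / 2) (by
      intro w hw
      obtain ⟨I, hIW, hI, h⟩ := half_gain D hirr w hw W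
      refine ⟨⟨I, hIW, hI⟩, ?_⟩
      have e1 : ∑ v, w v * (if v ∈ W then cov D I v else 1 / 2) =
          ∑ v ∈ W, w v * cov D I v + 1 / 2 * ∑ v ∈ Wᶜ, w v := by
        rw [← Finset.sum_add_sum_compl W]
        congr 1
        · exact Finset.sum_congr rfl fun v hv => by rw [if_pos hv]
        · rw [Finset.mul_sum]
          exact Finset.sum_congr rfl fun v hv => by
            rw [if_neg (Finset.mem_compl.1 hv), mul_comm]
      rw [e1, ← Finset.sum_add_sum_compl W w]
      linarith)
  refine ⟨fun S => if h : S ⊆ W ∧ Ind D S then p ⟨S, h⟩ else 0, ?_, ?_, ?_, ?_⟩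
  · intro S
    dsimp only
    split_ifs
    · exact hp0 _
    · exact le_rfl
  · have h1 := sum_dite_subtype (fun S : Finset V => S ⊆ W ∧ Ind D S) p (fun _ => 1)
    simp only [mul_one] at h1
    rw [h1, hp1]
  · intro S hS
    by_contra hc
    exact hS (dif_neg hc)
  · intro v hv
    have h1 := hp v
    simp only [hv, if_true] at h1
    rw [sum_dite_subtype (fun S : Finset V => S ⊆ W ∧ Ind D S) p (fun S => cov D S v)]
    exact h1

end Digraph

end Pool.Agent.Work.MP_6241b7_lin
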