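import Pool.Agent.Work.MP_6241b7_lin.Tree
import Pool.Agent.Work.MP_6241b7_lin.Greedy

/-!
# Oriented trees and the fractional chromatic number: a linear bound
-/

set_option autoImplicit false

open Finset Pool.Agent.Work.MP_6241b7_co Pool.Agent.Work.MP_6241b7_co.Frac

namespace Pool.Agent.Work.MP_6241b7_lin

variable {k n : ℕ}

theorem all_trees (hk : 1 ≤ k) (D : Fin n → Fin n → Prop) (hD : ∀ x, ¬ D x x)
    {T : Fin (k + 1) → Fin (k + 1) → Prop} (hTas : ∀ a b, T a b → ¬ T b a)
    (hT : (SimpleGraph.fromRel T).IsTree)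
    (hχ : 4 * (k : ℝ) - 2 < fractionalChromaticNumber (SimpleGraph.fromRel D)) :
    ∃ f : Fin (k + 1) → Fin n, Function.Injective f ∧ ∀ a b, T a b → D (f a) (f b) := by
  obtain ⟨m, par, κ, hR, -, hadj⟩ := tree_data hT hk 0
  refine embed_tree hk D hD hTas hR hadj univ (fun _ _ => Finset.mem_univ _) ?_
  simp only [Finset.card_univ, Fintype.card_bool]
  push_cast
  linarith

theorem out_arb (hk : 1 ≤ k) (D : Fin n → Fin n → Prop) (hD : ∀ x, ¬ D x x)
    {T : Fin (k + 1) → Fin (k + 1) → Prop} (hTas : ∀ a b, T a b → ¬ T b a)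
    (hT : (SimpleGraph.fromRel T).IsTree) (hin : ∀ a b c, T a c → T b c → a = b)
    (hχ : 2 * (k : ℝ) - 1 < fractionalChromaticNumber (SimpleGraph.fromRel D)) :
    ∃ f : Fin (k + 1) → Fin n, Function.Injective f ∧ ∀ a b, T a b → D (f a) (f b) := by
  classical
  obtain ⟨r, hr⟩ := exists_root hTas hT hin
  obtain ⟨m, par, κ, hR, hpar, hadj⟩ := tree_data hT hk r
  have h1 := sg_true hin hr hR hpar
  refine embed_tree hk D hD hTas hR hadj {true} (fun x hx => ?_) ?_
  · rw [Finset.mem_singleton]
    unfold sg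
    exact decide_eq_true (h1 x hx)
  · simp only [Finset.card_singleton, Nat.cast_one, one_mul]
    exact hχ

theorem fromRel_flip {α : Type*} (R : α → α → Prop) :
    SimpleGraph.fromRel (fun x y => R y x) = SimpleGraph.fromRel R := by
  ext x y
  rw [SimpleGraph.fromRel_adj, SimpleGraph.fromRel_adj, or_comm]

theorem in_arb (hk : 1 ≤ k) (D : Fin n → Fin n → Prop) (hD : ∀ x, ¬ D x x)
    {T : Fin (k + 1) → Fin (k + 1) → Prop} (hTas : ∀ a b, T a b → ¬ T b a)
    (hT : (SimpleGraph.fromRel T).IsTree) (hout : ∀ a b c, T a b → T a c → b = c)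
    (hχ : 2 * (k : ℝ) - 1 < fractionalChromaticNumber (SimpleGraph.fromRel D)) :
    ∃ f : Fin (k + 1) → Fin n, Function.Injective f ∧ ∀ a b, T a b → D (f a) (f b) := by
  obtain ⟨f, hf, h⟩ := out_arb hk (fun x y => D y x) hD (T := fun x y => T y x)
    (fun a b h1 h2 => hTas _ _ h1 h2) (by rw [fromRel_flip]; exact hT)
    (fun a b c h1 h2 => hout c a b h1 h2) (by rw [fromRel_flip]; exact hχ)
  exact ⟨f, hf, fun a b hab => h b a hab⟩

/-- `n ≤ α χ_f` -/
theorem card_le {D : Fin n → Fin n → Prop} {α : ℕ}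
    (hα : ∀ S : Finset (Fin n), (SimpleGraph.fromRel D).IsIndepSet (S : Set (Fin n)) → S.card ≤ α)
    {c : ℝ} (hc : 0 ≤ c) (h : c * α < n) :
    c < fractionalChromaticNumber (SimpleGraph.fromRel D) := by
  classical
  have hn : 0 < n := by
    rcases Nat.eq_zero_or_pos n with h0 | h0
    · rw [h0, Nat.cast_zero] at h
      have : 0 ≤ c * α := by positivity
      linarith
    · exact h0
  have hα1 : 1 ≤ α := by
    have h1 := hα {⟨0, hn⟩} (by
      intro x hx y hy hxy
      simp only [Finset.coe_singleton, Set.mem_singleton_iff] at hx hy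
      exact absurd (hx.trans hy.symm) hxy)
    simpa using h1
  have hα0 : (0 : ℝ) < α := by exact_mod_cast hα1
  have h3 : ∀ w, IsFractionalColouring (SimpleGraph.fromRel D) w →
      (n : ℝ) / α ≤ ∑ S, w S := by
    intro w hw
    rw [div_le_iff₀ hα0]
    calc (n : ℝ) = ∑ v : Fin n, (1 : ℝ) := by simp
      _ ≤ ∑ v, ∑ S with v ∈ S, w S := Finset.sum_le_sum fun v _ => hw.cover v
      _ = ∑ S, w S * S.card := by
          simp_rw [Finset.sum_filter]
          rw [Finset.sum_comm]
          refine Finset.sum_congr rfl fun S _ => ?_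
          rw [← Finset.sum_filter]
          have : univ.filter (fun v => v ∈ S) = S := by
            ext v
            simp
          rw [this, Finset.sum_const, nsmul_eq_mul, mul_comm]
      _ ≤ ∑ S, w S * α := by
          refine Finset.sum_le_sum fun S _ => ?_
          by_cases hS : w S = 0
          · rw [hS, zero_mul, zero_mul]
          refine mul_le_mul_of_nonneg_left ?_ (hw.nonneg S)
          exact_mod_cast hα S (hw.indep S hS)
      _ = (∑ S, w S) * α := by rw [Finset.sum_mul]
  have h4 : (n : ℝ) / α ≤ fractionalChromaticNumber (SimpleGraph.fromRel D) := by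
    refine le_csInf ?_ ?_
    · refine ⟨_, fun S => if S.card = 1 then 1 else 0, ⟨?_, ?_, ?_⟩, rfl⟩
      · intro S
        split_ifs <;> norm_num
      · intro S hS
        have h5 : S.card = 1 := by
          by_contra h
          exact hS (if_neg h)
        obtain ⟨a, rfl⟩ := Finset.card_eq_one.1 h5
        intro x hx y hy hxy
        simp only [Finset.coe_singleton, Set.mem_singleton_iff] at hx hy
        exact absurd (hx.trans hy.symm) hxy
      · intro v
        rw [Finset.sum_filter]
        refine le_trans ?_ (Finset.single_le_sum (f := fun S : Finset (Fin n) =>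
          if v ∈ S then (if S.card = 1 then (1 : ℝ) else 0) else 0) ?_ (Finset.mem_univ {v}))
        · simp
        · intro S _
          split_ifs <;> norm_num
    · rintro t ⟨w, hw, rfl⟩
      exact h3 w hw
  refine lt_of_lt_of_le ?_ h4
  rw [lt_div_iff₀ hα0]
  exact h

end Pool.Agent.Work.MP_6241b7_lin
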