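import Pool.Agent.Work.MP_6241b7_lin.Half

/-!
# Nested sequences of distributions on independent sets
-/

set_option autoImplicit false

open Finset Pool.Agent.Work.MP_6241b7_co.Frac

namespace Pool.Agent.Work.MP_6241b7_lin

/-- probability of `v` -/
noncomputable def pr {V : Type*} [DecidableEq V] [Fintype V] (P : Finset V → ℝ) (v : V) : ℝ :=
  ∑ S, if v ∈ S then P S else 0

/-- A nested sequence of distributions: `A t v` is the accumulated probability of `v`, and `P t σ` is
the distribution at time `t` for the direction `σ`. -/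
structure Nested {V : Type*} [DecidableEq V] [Fintype V] (D : V → V → Prop) [DecidableRel D]
    [DecidableRel (fun x y => D y x)]
    (𝒮 : Finset Bool) (ε : ℝ) (N : ℕ) (A : ℕ → V → ℝ) (P : ℕ → Bool → Finset V → ℝ) : Prop where
  zero : ∀ v, A 0 v = 0
  succ : ∀ t v, A (t + 1) v = A t v + ∑ σ ∈ 𝒮, pr (P t σ) v
  nonneg : ∀ t σ S, 0 ≤ P t σ S
  supp : ∀ t σ S, P t σ S ≠ 0 → ∀ y ∈ S, A t y ≤ ε
  cov_true : ∀ t v, A t v ≤ ε → 1 / 2 ≤ ∑ S, P t true S * cov D S v
  cov_false : ∀ t v, A t v ≤ ε → 1 / 2 ≤ ∑ S, P t false S * cov (fun x y => D y x) S v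
  last : ∃ v, A N v ≤ ε

theorem exists_nested {n : ℕ} (D : Fin n → Fin n → Prop) [DecidableRel D]
    [DecidableRel (fun x y => D y x)] (hirr : ∀ v, ¬ D v v) (𝒮 : Finset Bool) {ε : ℝ} (hε : 0 < ε)
    (N : ℕ) (hN : 𝒮.card * N / ε < fractionalChromaticNumber (SimpleGraph.fromRel D)) :
    ∃ A P, Nested D 𝒮 ε N A P := by
  classical
  choose Pt ht0 ht1 hts htc using exists_dist D hirr
  choose Pf hf0 hf1 hfs hfc using exists_dist (fun x y => D y x) hirr
  let Q : Finset (Fin n) → Bool → Finset (Fin n) → ℝ := fun W σ => if σ then Pt W else Pf W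
  have hQ0 : ∀ W σ S, 0 ≤ Q W σ S := by
    intro W σ S
    cases σ
    · exact hf0 W S
    · exact ht0 W S
  have hQ1 : ∀ W σ, ∑ S, Q W σ S = 1 := by
    intro W σ
    cases σ
    · exact hf1 W
    · exact ht1 W
  have hQs : ∀ W σ S, Q W σ S ≠ 0 → S ⊆ W ∧ Ind D S := by
    intro W σ S h
    cases σ
    · obtain ⟨h1, h2⟩ := hfs W S h
      exact ⟨h1, fun x hx y hy hxy => h2 y hy x hx hxy⟩
    · exact hts W S h
  let Vs : (Fin n → ℝ) → Finset (Fin n) := fun a => univ.filter fun y => a y ≤ ε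
  let A : ℕ → Fin n → ℝ := fun t => Nat.rec (fun _ => 0)
    (fun _ a v => a v + ∑ σ ∈ 𝒮, pr (Q (Vs a) σ) v) t
  have hA0 : ∀ v, A 0 v = 0 := fun v => rfl
  have hAs : ∀ t v, A (t + 1) v = A t v + ∑ σ ∈ 𝒮, pr (Q (Vs (A t)) σ) v := fun t v => rfl
  have hAf : ∀ t v, A t v = ∑ s ∈ range t, ∑ σ ∈ 𝒮, pr (Q (Vs (A s)) σ) v := by
    intro t v
    induction t with
    | zero => simp [hA0]
    | succ t ih => rw [hAs, ih, Finset.sum_range_succ]
  have hVs : ∀ t v, v ∈ Vs (A t) ↔ A t v ≤ ε := by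
    intro t v
    simp [Vs]
  refine ⟨A, fun t σ => Q (Vs (A t)) σ, ⟨hA0, hAs, fun t σ S => hQ0 _ _ _, ?_, ?_, ?_, ?_⟩⟩
  · intro t σ S hS y hy
    exact (hVs t y).1 ((hQs _ _ _ hS).1 hy)
  · intro t v hv
    exact htc _ v ((hVs t v).2 hv)
  · intro t v hv
    exact hfc _ v ((hVs t v).2 hv)
  · by_contra hcon
    push Not at hcon
    have hw : IsFractionalColouring (SimpleGraph.fromRel D)
        (fun S => 1 / ε * ∑ t ∈ range N, ∑ σ ∈ 𝒮, Q (Vs (A t)) σ S) := by
      refine ⟨fun S => ?_, fun S hS => ?_, fun v => ?_⟩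
      · exact mul_nonneg (by positivity) (Finset.sum_nonneg fun t _ =>
          Finset.sum_nonneg fun σ _ => hQ0 _ _ _)
      · have h1 : ∃ t σ, Q (Vs (A t)) σ S ≠ 0 := by
          by_contra h
          push Not at h
          apply hS
          rw [Finset.sum_eq_zero, mul_zero]
          intro t _
          exact Finset.sum_eq_zero fun σ _ => h t σ
        obtain ⟨t, σ, h1⟩ := h1
        have h2 := (hQs _ _ _ h1).2
        intro x hx y hy _ hxy
        rw [SimpleGraph.fromRel_adj] at hxy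
        rcases hxy.2 with h | h
        · exact h2 x hx y hy h
        · exact h2 y hy x hx h
      · have h1 : ∑ S with v ∈ S, (1 / ε * ∑ t ∈ range N, ∑ σ ∈ 𝒮, Q (Vs (A t)) σ S) =
            1 / ε * A N v := by
          rw [← Finset.mul_sum, hAf, Finset.sum_comm]
          congr 1
          refine Finset.sum_congr rfl fun t _ => ?_
          rw [Finset.sum_comm]
          refine Finset.sum_congr rfl fun σ _ => ?_
          rw [pr, Finset.sum_filter]
        rw [h1, one_div, inv_mul_eq_div, le_div_iff₀ hε, one_mul]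
        exact (hcon v).le
    have h1 := fractionalChromaticNumber_le hw
    have h2 : ∑ S, (1 / ε * ∑ t ∈ range N, ∑ σ ∈ 𝒮, Q (Vs (A t)) σ S) = 𝒮.card * N / ε := by
      rw [← Finset.mul_sum, Finset.sum_comm]
      have h3 : ∀ t ∈ range N, ∑ S, ∑ σ ∈ 𝒮, Q (Vs (A t)) σ S = 𝒮.card := by
        intro t _
        rw [Finset.sum_comm, Finset.sum_congr rfl fun σ _ => hQ1 _ σ]
        simp
      rw [Finset.sum_congr rfl h3]
      simp only [Finset.sum_const, Finset.card_range, nsmul_eq_mul]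
      ring
    rw [h2] at h1
    linarith

end Pool.Agent.Work.MP_6241b7_lin
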