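import Pool.Agent.Work.MP_6241b7_lin.Embed

/-!
# Rooted trees with a last internal vertex
-/

set_option autoImplicit false

open Finset Pool.Agent.Work.MP_6241b7_co.Frac

namespace Pool.Agent.Work.MP_6241b7_lin

variable {k : ℕ}

theorem tree_data {T : Fin (k + 1) → Fin (k + 1) → Prop} (hT : (SimpleGraph.fromRel T).IsTree)
    (hk : 1 ≤ k) (r : Fin (k + 1)) :
    ∃ (m : Fin (k + 1)) (par : Fin (k + 1) → Fin (k + 1)) (κ : Fin (k + 1) → ℕ),
      RTree r m par κ ∧ (∀ x, x ≠ r → (SimpleGraph.fromRel T).Adj x (par x)) ∧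
      ∀ a b, (SimpleGraph.fromRel T).Adj a b → (a ≠ r ∧ b = par a) ∨ (b ≠ r ∧ a = par b) := by
  classical
  set G := SimpleGraph.fromRel T with hG
  have hconn := hT.connected
  let p : Fin (0 + 1) → Fin (k + 1) := fun _ => r
  have hp : Function.Injective p := fun i j _ => Fin.ext (by omega)
  obtain ⟨d, hd⟩ : ∃ d : Fin (k + 1) → ℕ, d = ht G p := ⟨_, rfl⟩
  have hd0 : ∀ v, d v = 0 ↔ v = r := by
    intro v
    rw [hd, ht_eq_zero hconn p]
    constructor
    · rintro ⟨i, hi⟩
      exact hi.symm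
    · rintro rfl
      exact ⟨0, rfl⟩
  have hex : ∀ v, ∃ u, v ≠ r → (G.Adj v u ∧ d u + 1 = d v) := by
    intro v
    by_cases hv : v = r
    · exact ⟨v, fun h => absurd hv h⟩
    · have h1 : 0 < ht G p v := by
        rw [← hd]
        have := (hd0 v).not.2 hv
        omega
      obtain ⟨u, hu1, hu2⟩ := exists_par hconn p h1
      exact ⟨u, fun _ => ⟨hu1, by rw [hd]; exact hu2⟩⟩
  choose par hpar using hex
  have hadj : ∀ a b, G.Adj a b → (a ≠ r ∧ b = par a) ∨ (b ≠ r ∧ a = par b) := by
    intro a b hab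
    have h1 := (edges hT hp (fun i => i.elim0) par (by
      intro v hv
      have hv' : v ≠ r := by
        intro h
        have h2 := (hd0 v).2 h
        rw [hd] at h2
        rw [← hG] at hv
        omega
      rw [← hG, ← hd]
      exact hpar v hv')).2 a b hab
    have h3 : ∀ v, 0 < ht (SimpleGraph.fromRel T) p v → v ≠ r := by
      intro v hv h
      have h2 := (hd0 v).2 h
      rw [hd] at h2
      rw [← hG] at hv
      omega
    rcases h1 with ⟨i, -⟩ | ⟨h1, h2⟩ | ⟨h1, h2⟩
    · exact i.elim0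
    · exact Or.inl ⟨h3 a h1, h2⟩
    · exact Or.inr ⟨h3 b h1, h2⟩
  obtain ⟨z, -, hz⟩ := Finset.exists_max_image (univ : Finset (Fin (k + 1))) d ⟨r, mem_univ _⟩
  have hzr : z ≠ r := by
    rintro rfl
    have h1 : d z = 0 := (hd0 z).2 rfl
    have h2 : ∀ v, v = z := by
      intro v
      have h3 := hz v (mem_univ v)
      exact (hd0 v).1 (by omega)
    have h4 := h2 ⟨0, by omega⟩
    have h5 := h2 ⟨1, by omega⟩
    rw [← h4] at h5
    have h6 := congrArg Fin.val h5
    simp at h6
  have hzM : ∀ v, d v ≤ d z := fun v => hz v (mem_univ v)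
  have hzm := (hpar z hzr).2
  refine ⟨par z, par, fun x => if x = par z then d z + 1 else if x ≠ r ∧ par x = par z then d z + 2
    else d x, ⟨?_, ?_, ?_, ⟨z, hzr, rfl⟩⟩, fun x hx => (hpar x hx).1, hadj⟩
  · intro x
    by_cases hrm : r = par z
    · rw [if_pos hrm]
      by_cases hx : x = par z
      · rw [if_pos hx]
      · rw [if_neg hx]
        have hxr : x ≠ r := by rw [hrm]; exact hx
        have h1 : d (par z) = 0 := (hd0 _).2 hrm.symm
        have h2 := (hpar x hxr).2
        have h3 := hzM x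
        have h4 : par x = r := (hd0 _).1 (by omega)
        rw [if_pos ⟨hxr, by rw [h4]; exact hrm⟩]
        omega
    · rw [if_neg hrm, if_neg (by simp)]
      have := (hd0 r).2 rfl
      omega
  · intro x hx
    have h2 := (hpar x hx).2
    have h3 := hzM x
    have h4 := hzM (par x)
    by_cases hxm : par x = par z
    · have h5 : x ≠ par z := by
        intro h
        rw [← h] at hxm
        rw [hxm] at h2
        omega
      rw [if_pos hxm, if_neg h5, if_pos ⟨hx, hxm⟩]
      omega
    · rw [if_neg hxm]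
      have h6 : ¬ (par x ≠ r ∧ par (par x) = par z) := by
        rintro ⟨h7, h8⟩
        have h9 := (hpar _ h7).2
        rw [h8] at h9
        omega
      rw [if_neg h6]
      split_ifs
      · omega
      · rename_i h7 h8
        exact absurd h8.2 hxm
      · omega
  · intro x hx hxm
    rw [if_pos rfl, if_neg hxm]
    intro h
    by_contra hc
    rw [if_neg (fun h => hc h.2)] at h
    have := hzM x
    omega

/-- the orientation of the edge to the parent -/
noncomputable def sg (T : Fin (k + 1) → Fin (k + 1) → Prop)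
    (par : Fin (k + 1) → Fin (k + 1)) (x : Fin (k + 1)) : Bool := by
  classical exact decide (T (par x) x)

theorem embed_tree {n : ℕ} (hk : 1 ≤ k) (D : Fin n → Fin n → Prop) (hD : ∀ x, ¬ D x x)
    {T : Fin (k + 1) → Fin (k + 1) → Prop} (hTas : ∀ a b, T a b → ¬ T b a)
    {r m : Fin (k + 1)} {par : Fin (k + 1) → Fin (k + 1)} {κ : Fin (k + 1) → ℕ}
    (hR : RTree r m par κ)
    (hadj : ∀ a b, (SimpleGraph.fromRel T).Adj a b → (a ≠ r ∧ b = par a) ∨ (b ≠ r ∧ a = par b))
    (𝒮 : Finset Bool) (h𝒮 : ∀ x, x ≠ r → sg T par x ∈ 𝒮)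
    (hχ : 𝒮.card * (2 * (k : ℝ) - 1) < fractionalChromaticNumber (SimpleGraph.fromRel D)) :
    ∃ f : Fin (k + 1) → Fin n, Function.Injective f ∧ ∀ a b, T a b → D (f a) (f b) := by
  classical
  set c := fractionalChromaticNumber (SimpleGraph.fromRel D) with hc
  have hk1 : (1 : ℝ) ≤ k := by exact_mod_cast hk
  set s : ℝ := (𝒮.card : ℝ) with hs
  have hs0 : 0 ≤ s := by positivity
  set δ : ℝ := c - s * (2 * k - 1) with hδ
  have hδ0 : 0 < δ := by rw [hδ]; linarith
  set ε : ℝ := s * k / δ + 1 with hε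
  have hε0 : 0 < ε := by positivity
  set N : ℕ := ⌊(k : ℝ) - 1 + ε * (2 * k - 1)⌋₊ + 1 with hN
  have hpos : 0 ≤ (k : ℝ) - 1 + ε * (2 * k - 1) := by
    have : 0 ≤ ε * (2 * (k : ℝ) - 1) := mul_nonneg hε0.le (by linarith)
    linarith
  have hN1 : (k : ℝ) - 1 + ε * (2 * k - 1) < N := by
    rw [hN]
    push_cast
    exact Nat.lt_floor_add_one _
  have hN2 : (N : ℝ) ≤ k + ε * (2 * k - 1) := by
    rw [hN]
    push_cast
    have := Nat.floor_le hpos
    linarith
  have hlt : 𝒮.card * (N : ℝ) / ε < c := by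
    rw [← hs, div_lt_iff₀ hε0]
    have e1 : s * N ≤ s * (k + ε * (2 * k - 1)) := mul_le_mul_of_nonneg_left hN2 hs0
    have e2 : s * k < ε * δ := by
      rw [hε, add_mul, one_mul, div_mul_cancel₀ _ hδ0.ne']
      linarith
    have e3 : c * ε = ε * δ + s * (ε * (2 * k - 1)) := by
      rw [hδ]
      ring
    rw [e3]
    linarith
  obtain ⟨A, P, hA⟩ := exists_nested D hD 𝒮 hε0 N hlt
  obtain ⟨f, hf⟩ := embed hε0 hA hR h𝒮 (by simp) hN1
  refine ⟨f, fun a b hab => hf.inj a (mem_univ _) b (mem_univ _) hab, fun a b hab => ?_⟩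
  have hne : a ≠ b := by
    rintro rfl
    exact hTas _ _ hab hab
  rcases hadj a b ((SimpleGraph.fromRel_adj _ _ _).2 ⟨hne, Or.inl hab⟩) with ⟨h1, h2⟩ | ⟨h1, h2⟩
  · have h3 := hf.arc a (mem_univ _) h1
    have h4 : sg T par a = false := by
      unfold sg
      rw [← h2]
      exact decide_eq_false (hTas _ _ hab)
    rw [h4, ← h2] at h3
    exact h3
  · have h3 := hf.arc b (mem_univ _) h1
    have h4 : sg T par b = true := by
      unfold sg
      rw [← h2]
      exact decide_eq_true hab
    rw [h4, ← h2] at h3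
    exact h3

/-- an oriented tree in which all in-degrees are at most one has a root -/
theorem exists_root {T : Fin (k + 1) → Fin (k + 1) → Prop} (hTas : ∀ a b, T a b → ¬ T b a)
    (hT : (SimpleGraph.fromRel T).IsTree) (hin : ∀ a b c, T a c → T b c → a = b) :
    ∃ r, ∀ a, ¬ T a r := by
  classical
  by_contra hcon
  push Not at hcon
  choose g hg using hcon
  have hinj : Function.Injective (fun v : Fin (k + 1) => s(g v, v)) := by
    intro v w hvw
    rcases Sym2.eq_iff.1 hvw with ⟨-, h2⟩ | ⟨h1, h2⟩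
    · exact h2
    · exfalso
      have h3 := hg v
      have h4 := hg w
      rw [h1] at h3
      rw [← h2] at h4
      exact hTas _ _ h3 h4
  have hsub : univ.image (fun v : Fin (k + 1) => s(g v, v)) ⊆
      (SimpleGraph.fromRel T).edgeFinset := by
    intro e he
    obtain ⟨v, -, rfl⟩ := Finset.mem_image.1 he
    rw [SimpleGraph.mem_edgeFinset, SimpleGraph.mem_edgeSet, SimpleGraph.fromRel_adj]
    refine ⟨?_, Or.inl (hg v)⟩
    intro h
    have h3 := hg v
    rw [h] at h3
    exact hTas _ _ h3 h3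
  have h1 := Finset.card_le_card hsub
  rw [Finset.card_image_of_injective _ hinj, Finset.card_univ, Fintype.card_fin] at h1
  have h2 := hT.card_edgeFinset
  rw [Fintype.card_fin] at h2
  omega

theorem sg_true {T : Fin (k + 1) → Fin (k + 1) → Prop}
    (hin : ∀ a b c, T a c → T b c → a = b) {r m : Fin (k + 1)}
    (hr : ∀ a, ¬ T a r) {par : Fin (k + 1) → Fin (k + 1)} {κ : Fin (k + 1) → ℕ}
    (hR : RTree r m par κ) (hpar : ∀ x, x ≠ r → (SimpleGraph.fromRel T).Adj x (par x)) :
    ∀ x, x ≠ r → T (par x) x := by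
  have key : ∀ s, ∀ x, κ x = s → x ≠ r → T (par x) x := by
    intro s
    induction s using Nat.strong_induction_on with
    | _ s ih =>
      intro x hxs hx
      rcases ((SimpleGraph.fromRel_adj _ _ _).1 (hpar x hx)).2 with h | h
      · exfalso
        by_cases hp : par x = r
        · rw [hp] at h
          exact hr x h
        · have h1 := hR.lt x hx
          have h2 := hR.lt _ hp
          have h3 := ih (κ (par x)) (by omega) (par x) rfl hp
          have h4 := hin _ _ _ h h3
          rw [← h4] at h2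
          omega
      · exact h
  exact fun x hx => key _ x rfl hx

end Pool.Agent.Work.MP_6241b7_lin
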